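import Mathlib
import Pool.Agent.V11269.LinRec

/-!
For a monic integer polynomial `P` and `k ≥ 0` the multiplicative Lagrange spectrum
`L^(k)(P)` is countable near `0`; in particular it is not the whole interval `[0, 1/2]`.
-/

namespace Pool.Agent.Results.MP_6c75e4_nt.CountableNearZero

open Polynomial Filter Topology Pool.Agent.V11269.LinRec

/-- The distance from `x` to the nearest integer. -/
noncomputable def distInt (x : ℝ) : ℝ := |x - round x|

/-- The expanding roots of `P`: its complex roots of modulus greater than `1`. -/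
noncomputable def expRoots (P : ℤ[X]) : Finset ℂ :=
  ((P.map (Int.castRingHom ℂ)).roots.toFinset).filter (fun α => 1 < ‖α‖)

/-- The tuples `(g_α)` of complex polynomials of degree at most `k`, indexed by the expanding
roots of `P`, with `g_{conj α} = conj g_α` (so `g_α` is real for real `α`). -/
def Xi (P : ℤ[X]) (k : ℕ) : Set (ℂ → ℂ[X]) :=
  {g | ∀ α ∈ expRoots P, (g α).natDegree ≤ k ∧
    g (starRingEnd ℂ α) = (g α).map (starRingEnd ℂ)}

/-- `x_n(g) = ∑ g_α(n) α^n`, the sum running over the expanding roots. -/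
noncomputable def xseq (P : ℤ[X]) (g : ℂ → ℂ[X]) (n : ℕ) : ℂ :=
  ∑ α ∈ expRoots P, (g α).eval (n : ℂ) * α ^ n

/-- The multiplicative Lagrange spectrum of order `k` (the numbers `x_n(g)` are real). -/
def spectrum (P : ℤ[X]) (k : ℕ) : Set ℝ :=
  {v | ∃ g ∈ Xi P k, v = limsup (fun n : ℕ => distInt (xseq P g n).re) atTop}

lemma mem_expRoots {P : ℤ[X]} (hP : P ≠ 0) {α : ℂ} :
    α ∈ expRoots P ↔ aeval α P = 0 ∧ 1 < ‖α‖ := by
  have hP' : P.map (Int.castRingHom ℂ) ≠ 0 := by
    rw [Polynomial.map_ne_zero_iff (Int.castRingHom ℂ).injective_int]; exact hP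
  unfold expRoots
  rw [Finset.mem_filter, Multiset.mem_toFinset, mem_roots hP', IsRoot.def, eval_map,
    aeval_def]
  rfl

lemma conj_mem {P : ℤ[X]} (hP : P ≠ 0) {α : ℂ} (h : α ∈ expRoots P) :
    starRingEnd ℂ α ∈ expRoots P := by
  rw [mem_expRoots hP] at h ⊢
  refine ⟨?_, by simpa using h.2⟩
  have := congrArg (starRingEnd ℂ) h.1
  rw [map_zero] at this
  rw [← this, aeval_def, aeval_def, ← eval_map, ← eval_map, eval_eq_sum_range, eval_eq_sum_range]
  simp [map_sum]

lemma xseq_real {P : ℤ[X]} (hP : P ≠ 0) {k : ℕ} {g : ℂ → ℂ[X]} (hg : g ∈ Xi P k) (n : ℕ) :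
    ((xseq P g n).re : ℂ) = xseq P g n := by
  rw [← Complex.conj_eq_iff_re]
  unfold xseq
  rw [map_sum]
  apply Finset.sum_nbij (fun α => starRingEnd ℂ α)
  · intro α hα; exact conj_mem hP hα
  · intro α _ β _ h; exact (starRingEnd ℂ).injective h
  · intro α hα
    exact ⟨starRingEnd ℂ α, conj_mem hP hα, by simp⟩
  · intro α hα
    rw [(hg α hα).2, map_mul, map_pow, eval_map, ← eval₂_at_natCast]

/-- The polynomial killing all the sequences `x(g)`. -/
noncomputable def killer (P : ℤ[X]) (k : ℕ) : Multiset ℂ :=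
  ∑ α ∈ expRoots P, Multiset.replicate (k + 1) α

lemma killer_prod (P : ℤ[X]) (k : ℕ) :
    ((killer P k).map (fun α => X - C α)).prod = ∏ α ∈ expRoots P, (X - C α) ^ (k + 1) := by
  have h : (killer P k).map (fun α => X - C α) =
      ∑ α ∈ expRoots P, (Multiset.replicate (k + 1) α).map (fun α => X - C α) := by
    unfold killer
    exact map_sum (Multiset.mapAddMonoidHom (fun α : ℂ => X - C α)) _ _
  rw [h, Multiset.prod_sum]
  simp only [Multiset.map_replicate, Multiset.prod_replicate]

lemma killer_norm {P : ℤ[X]} {k : ℕ} {α : ℂ} (h : α ∈ killer P k) : 1 < ‖α‖ := by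
  unfold killer at h
  rw [Multiset.mem_sum] at h
  obtain ⟨β, hβ, h⟩ := h
  rw [Multiset.eq_of_mem_replicate h]
  unfold expRoots at hβ
  exact (Finset.mem_filter.1 hβ).2

lemma xseq_killed {P : ℤ[X]} {k : ℕ} {g : ℂ → ℂ[X]} (hg : g ∈ Xi P k) {Q : ℂ[X]}
    (hQ : ∀ α ∈ expRoots P, (X - C α) ^ (k + 1) ∣ Q) :
    (aeval (shift ℂ) Q) (xseq P g) = 0 := by
  have : xseq P g = ∑ α ∈ expRoots P, fun n : ℕ => (g α).eval (n : ℂ) * α ^ n := by
    funext n; simp [xseq]
  rw [this, map_sum]
  exact Finset.sum_eq_zero fun α hα => kill_of_dvd (hg α hα).1 (hQ α hα)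

lemma xseq_killer {P : ℤ[X]} {k : ℕ} {g : ℂ → ℂ[X]} (hg : g ∈ Xi P k) :
    (aeval (shift ℂ) ((killer P k).map (fun α => X - C α)).prod) (xseq P g) = 0 := by
  rw [killer_prod]
  exact xseq_killed hg fun α hα => Finset.dvd_prod_of_mem _ hα

/-- The real recurrence satisfied by `x(g)`. -/
lemma xseq_rec {P : ℤ[X]} (hP : P.Monic) {k : ℕ} {g : ℂ → ℂ[X]} (hg : g ∈ Xi P k) (n : ℕ) :
    ∑ i ∈ Finset.range ((P ^ (k + 1)).natDegree + 1),
      ((P ^ (k + 1)).coeff i : ℝ) * (xseq P g (n + i)).re = 0 := by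
  set Q := P ^ (k + 1) with hQdef
  have hQ : Q.Monic := hP.pow _
  have h1 : (aeval (shift ℂ) (Q.map (Int.castRingHom ℂ))) (xseq P g) = 0 := by
    apply xseq_killed hg
    intro α hα
    rw [hQdef, Polynomial.map_pow]
    apply pow_dvd_pow_of_dvd
    rw [dvd_iff_isRoot, IsRoot.def, eval_map]
    have := ((mem_expRoots hP.ne_zero).1 hα).1
    rwa [aeval_def] at this
  have h2 := congrFun h1 n
  rw [aeval_shift_apply, hQ.natDegree_map] at h2
  have h3 := congrArg Complex.re h2
  simp only [Complex.re_sum, coeff_map, Pi.zero_apply, Complex.zero_re] at h3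
  rw [← h3]
  apply Finset.sum_congr rfl
  intro i _
  simp [Complex.mul_re]

/-- The sequence `x(g)` is determined by the nearest integers to its terms on a tail on which it is
bounded away from the half-integers. -/
lemma xseq_unique {P : ℤ[X]} (hP : P ≠ 0) {k : ℕ} {g h : ℂ → ℂ[X]} (hg : g ∈ Xi P k)
    (hh : h ∈ Xi P k) (n₀ : ℕ)
    (hround : ∀ n, round (xseq P g (n₀ + n)).re = round (xseq P h (n₀ + n)).re) :
    xseq P g = xseq P h := by
  have hkill : (aeval (shift ℂ) ((killer P k).map (fun α => X - C α)).prod)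
      (xseq P g - xseq P h) = 0 := by
    rw [map_sub, xseq_killer hg, xseq_killer hh, sub_zero]
  have hbound : ∃ B, ∀ n, ‖(xseq P g - xseq P h) n‖ ≤ B := by
    refine ⟨(∑ j ∈ Finset.range n₀, ‖(xseq P g - xseq P h) j‖) + 1, fun n => ?_⟩
    by_cases hn : n < n₀
    · have : ‖(xseq P g - xseq P h) n‖ ≤ ∑ j ∈ Finset.range n₀, ‖(xseq P g - xseq P h) j‖ :=
        Finset.single_le_sum (f := fun j => ‖(xseq P g - xseq P h) j‖)
          (fun j _ => norm_nonneg _) (Finset.mem_range.2 hn)
      linarith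
    · push Not at hn
      obtain ⟨j, rfl⟩ := Nat.exists_eq_add_of_le hn
      have h0 : 0 ≤ ∑ j ∈ Finset.range n₀, ‖(xseq P g - xseq P h) j‖ :=
        Finset.sum_nonneg fun _ _ => norm_nonneg _
      have h1 : ‖(xseq P g - xseq P h) (n₀ + j)‖ ≤ 1 := by
        rw [Pi.sub_apply, ← xseq_real hP hg, ← xseq_real hP hh, ← Complex.ofReal_sub,
          Complex.norm_real, Real.norm_eq_abs]
        have e1 := abs_sub_round (xseq P g (n₀ + j)).re
        have e2 := abs_sub_round (xseq P h (n₀ + j)).re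
        rw [← hround j] at e2
        rw [abs_le] at e1 e2 ⊢
        constructor <;> linarith [e1.1, e1.2, e2.1, e2.2]
      linarith
  have := eq_zero_of_bounded (killer P k) (fun α hα => killer_norm hα) _ hbound hkill
  exact sub_eq_zero.1 this

/-- For every monic integer polynomial `P` and every `k`, there is `δ > 0` such that only countably
many elements of `L^(k)(P)` are smaller than `δ`; in particular `L^(k)(P)` is not `[0, 1/2]`. -/
theorem result (P : ℤ[X]) (hP : P.Monic) (k : ℕ) :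
    (∃ δ > 0, (spectrum P k ∩ Set.Iio δ).Countable) ∧ spectrum P k ≠ Set.Icc 0 (1 / 2) := by
  have hP0 : P ≠ 0 := hP.ne_zero
  set Q := P ^ (k + 1) with hQdef
  have hQ : Q.Monic := hP.pow _
  have hlen := len_pos hQ
  have hlenR : (1 : ℝ) ≤ len Q := by exact_mod_cast hlen
  set δ : ℝ := 1 / len Q with hδdef
  have hδ : 0 < δ := by positivity
  have hcount : (spectrum P k ∩ Set.Iio δ).Countable := by
    -- choose data for each value
    have hdata : ∀ v : (spectrum P k ∩ Set.Iio δ : Set ℝ), ∃ (g : ℂ → ℂ[X]) (n₀ : ℕ),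
        g ∈ Xi P k ∧ (v : ℝ) = limsup (fun n : ℕ => distInt (xseq P g n).re) atTop ∧
        ∀ n, n₀ ≤ n → nd (xseq P g n).re < δ := by
      rintro ⟨v, ⟨g, hg, hv⟩, hvδ⟩
      have hlt : limsup (fun n : ℕ => distInt (xseq P g n).re) atTop < δ := by
        rw [← hv]; exact hvδ
      have hev := eventually_lt_of_limsup_lt hlt
        (isBoundedUnder_of ⟨1 / 2, fun n => abs_sub_round _⟩)
      obtain ⟨n₀, hn₀⟩ := eventually_atTop.1 hev
      exact ⟨g, n₀, hg, hv, hn₀⟩
    choose G N hG hval hclose using hdata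
    let code : (spectrum P k ∩ Set.Iio δ : Set ℝ) → ℕ × (Fin Q.natDegree → ℤ) := fun v =>
      (N v, fun i => round (xseq P (G v) (N v + i)).re)
    have hinj : Function.Injective code := by
      intro v w hvw
      have hN : N v = N w := congrArg Prod.fst hvw
      have hwin := congrArg Prod.snd hvw
      have hrecv := fun n (hn : N v ≤ n) => round_rec Q (fun j => (xseq P (G v) j).re) (N v)
        (fun n => xseq_rec hP (hG v) n) δ (by rw [hδdef]; field_simp; rfl) hlen (hclose v) n hn
      have hrecw := fun n (hn : N v ≤ n) => round_rec Q (fun j => (xseq P (G w) j).re) (N v)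
        (fun n => xseq_rec hP (hG w) n) δ (by rw [hδdef]; field_simp; rfl) hlen
        (fun n hn => hclose w n (hN ▸ hn)) n hn
      have hround := rec_unique Q hQ (fun j => round (xseq P (G v) j).re)
        (fun j => round (xseq P (G w) j).re) (N v) hrecv hrecw (by
          intro i hi
          have := congrFun hwin ⟨i, hi⟩
          simp only [code] at this
          rw [this, hN])
      have hx := xseq_unique hP0 (hG v) (hG w) (N v) hround
      apply Subtype.ext
      rw [hval v, hval w, hx]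
    exact (Set.countable_coe_iff).1 (hinj.countable)
  refine ⟨⟨δ, hδ, hcount⟩, ?_⟩
  intro heq
  rw [heq] at hcount
  have hsub : Set.Ioo 0 (min δ (1 / 2)) ⊆ Set.Icc (0 : ℝ) (1 / 2) ∩ Set.Iio δ := by
    intro x hx
    exact ⟨⟨hx.1.le, (hx.2.trans_le (min_le_right _ _)).le⟩, hx.2.trans_le (min_le_left _ _)⟩
  have h2 := hcount.mono hsub
  have h3 : ¬ (Set.Ioo 0 (min δ (1 / 2)) : Set ℝ).Countable := by
    rw [← Cardinal.le_aleph0_iff_set_countable, not_le,
      Cardinal.mk_Ioo_real (lt_min hδ (by norm_num))]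
    exact Cardinal.aleph0_lt_continuum
  exact h3 h2

end Pool.Agent.Results.MP_6c75e4_nt.CountableNearZero
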